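import Pool.Graph.R_pool_sql_team_seeded_3997aac3.Q212.SV6

/-!
# Embeddability in the Tychonoff cube does not imply partial countable choice for pairs

The model is the second Cohen model of the library module
`Pool.Graph.R_pool_sql_team_seeded_3997aac3.Q212.SV6`. In it every compact metrizable space embeds
in the Tychonoff cube with the exponent of the reals, but there is a denumerable family `A` of
two-element sets such that no infinite subfamily of `A` has a choice function: every relation of the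
model picks exactly one element from at most finitely many of the sets in `A`.
-/

set_option autoImplicit false

namespace Pool.Agent.Results.MP_d9473e_lc.PartialChoiceForPairsFails

open Pool.Agent.W868 Pool.Agent.Q211.FS Pool.Agent.Q211.SY Pool.Agent.Q212.SV
open Pool.Agent.W868.PName Pool.Agent.Q211.PA Pool.Agent.Q211.TP Pool.Agent.Q211.AM
open ZFSet (pair)

/-- There is a countable transitive model `M` of ZF in which every compact metrizable space is
embeddable in the Tychonoff cube with the exponent of the reals, but which contains a denumerable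
family `A` of two-element sets no infinite subfamily of which has a choice function in `M`: for
every `c` in `M`, only for finitely many `s ∈ A` there is exactly one `w` with `(s, w) ∈ c` and this
`w` is in `s`. -/
theorem result : ∃ M : Set ZFSet.{0}, M.Countable ∧ IsZF M ∧
    (∀ X ∈ M, ∀ τ ∈ M, MetrizableIn M X τ → CompactIn M X τ → EmbedsInCube M X τ) ∧
    ∃ A ∈ M, (∃ f ∈ M, IsBij ZFSet.omega A f) ∧ (∀ s ∈ A, ∃ u v, u ≠ v ∧ s = {u, v}) ∧
      ∀ c ∈ M, {s : ZFSet.{0} | s ∈ A ∧ ∃ z ∈ s, ∀ w, pair s w ∈ c ↔ w = z}.Finite := by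
  classical
  obtain ⟨M, at', st, A, h⟩ := exists_md
  have hst : ∀ n, st (Dn n) = {at' (n, true), at' (n, false)} := by
    intro n
    ext z
    rw [h.mst, ZFSet.mem_pair]
    constructor
    · rintro ⟨⟨m, b⟩, hm, rfl⟩
      obtain rfl := mem_Dn.1 hm
      cases b
      · exact Or.inr rfl
      · exact Or.inl rfl
    · rintro (rfl | rfl)
      · exact ⟨_, rfl, rfl⟩
      · exact ⟨_, rfl, rfl⟩
  have hinj : ∀ n m, st (Dn n) = st (Dn m) → n = m := by
    intro n m hnm
    have h1 : at' (n, true) ∈ st (Dn n) := (h.mst _ _).2 ⟨_, rfl, rfl⟩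
    rw [hnm, h.mst] at h1
    obtain ⟨x, hx, h2⟩ := h1
    rw [← h.inj h2] at hx
    exact hx
  refine ⟨M, h.cnt, h.zf, fun X hX τ hτ hmet hcpt => ?_, A, h.AM, ?_, fun s hs => ?_, ?_⟩
  · obtain ⟨d, m⟩ := hmet
    obtain ⟨D, hD, hD'⟩ := exists_ent h.zf hX m
    have s : Sp0 M X τ d D := ⟨h.zf, hX, hτ, m, hD, hD', hcpt⟩
    obtain ⟨F, v⟩ := h.sv X hX
    obtain ⟨R, hRM, hR⟩ := exists_reals h.zf h.qc h.lq
    obtain ⟨Θ, hΘM, hΘ⟩ := exists_dense s v h.qc h.cb h.bt h.en hRM hR
    exact embeds_of_dense h.zf h.qc h.lq hX m hτ hRM hR hΘM hΘ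
  · obtain ⟨F, hF, hF'⟩ := h.bij
    refine ⟨F, hF, ⟨⟨fun z hz => ?_, fun n hn => ?_⟩, fun a b c ha hb => ?_⟩, fun b hb => ?_⟩
    · obtain ⟨n, rfl⟩ := (hF' z).1 hz
      exact ZFSet.pair_mem_prod.2 ⟨mem_omega_iff.2 ⟨n, rfl⟩, (h.mA _).2 ⟨n, rfl⟩⟩
    · obtain ⟨n, rfl⟩ := mem_omega_iff.1 hn
      refine ⟨st (Dn n), (hF' _).2 ⟨n, rfl⟩, fun w hw => ?_⟩
      obtain ⟨m, hm⟩ := (hF' _).1 hw
      obtain ⟨h1, rfl⟩ := ZFSet.pair_inj.1 hm
      rw [nat_injective h1]
    · obtain ⟨n, hn⟩ := (hF' _).1 ha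
      obtain ⟨m, hm⟩ := (hF' _).1 hb
      obtain ⟨rfl, h1⟩ := ZFSet.pair_inj.1 hn
      obtain ⟨rfl, h2⟩ := ZFSet.pair_inj.1 hm
      rw [hinj n m (h1.symm.trans h2)]
    · obtain ⟨n, rfl⟩ := (h.mA _).1 hb
      exact ⟨nat n, mem_omega_iff.2 ⟨n, rfl⟩, (hF' _).2 ⟨n, rfl⟩⟩
  · obtain ⟨n, rfl⟩ := (h.mA _).1 hs
    refine ⟨at' (n, true), at' (n, false), fun h1 => ?_, hst n⟩
    have h2 := h.inj h1
    simp at h2
  · intro c hc
    obtain ⟨E, hE⟩ := h.inv c hc
    refine ((E.image Prod.fst).finite_toSet.image fun n => st (Dn n)).subset ?_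
    rintro s ⟨hs, z, hz, h2⟩
    obtain ⟨n, rfl⟩ := (h.mA _).1 hs
    refine ⟨n, ?_, rfl⟩
    by_contra hn
    rw [Finset.mem_coe] at hn
    obtain ⟨x, hx, rfl⟩ := (h.mst _ _).1 hz
    obtain rfl := mem_Dn.1 hx
    let γ : Gm := fun m => if m = x.1 then Equiv.swap true false else 1
    have h3 := hE γ (fun y hy => by
      rw [smul_def]
      have h4 : y.1 ≠ x.1 := by
        intro h5
        exact hn (h5 ▸ Finset.mem_image_of_mem _ hy)
      have h5 : γ y.1 = 1 := if_neg h4
      rw [h5]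
      rfl) x.1 x ((h2 _).2 rfl)
    have h4 := h.inj ((h2 _).1 h3)
    rw [smul_def] at h4
    have h5 := (Prod.ext_iff.1 h4).2
    have h6 : γ x.1 = Equiv.swap true false := if_pos rfl
    dsimp only at h5
    rw [h6] at h5
    cases hb : x.2
    · rw [hb] at h5
      simp at h5
    · rw [hb] at h5
      simp at h5

end Pool.Agent.Results.MP_d9473e_lc.PartialChoiceForPairsFails
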